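import Pool.Agent.W668.Uni.Stmts

/-!
# UNI-PATH: the fundamental theorem of calculus along the paths
-/

set_option autoImplicit false

open Set MeasureTheory Filter
open scoped ContDiff Topology

namespace Pool.Agent.W466.UniPath

open Pool.Agent.W668.Uni

noncomputable section

/-! ### Evaluation -/

theorem evY_bound (h : Y) (y t : ℝ) : |evY h y t| ≤ ‖h‖ := by
  have := ContinuousMap.norm_coe_le_norm h
    (Set.projIcc (0 : ℝ) 1 zero_le_one y, Set.projIcc (0 : ℝ) (Real.pi / 2) Th_le t)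
  simpa [evY, Real.norm_eq_abs] using this

theorem evX_bound (h : X) (y : ℝ) : |evX h y| ≤ ‖h‖ := by
  have := ContinuousMap.norm_coe_le_norm h (Set.projIcc (0 : ℝ) 1 zero_le_one y)
  simpa [evX, Real.norm_eq_abs] using this

theorem cont_evY (h : Y) {α : Type*} [TopologicalSpace α] {a b : α → ℝ}
    (ha : Continuous a) (hb : Continuous b) : Continuous (fun z => evY h (a z) (b z)) :=
  (continuous_evY h).comp (ha.prodMk hb)

theorem contOn_evY (h : Y) {α : Type*} [TopologicalSpace α] {a b : α → ℝ} {S : Set α}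
    (ha : ContinuousOn a S) (hb : ContinuousOn b S) :
    ContinuousOn (fun z => evY h (a z) (b z)) S :=
  (continuous_evY h).comp_continuousOn (ha.prodMk hb)

theorem meas_evY (h : Y) {α : Type*} [MeasurableSpace α] {a b : α → ℝ}
    (ha : Measurable a) (hb : Measurable b) : Measurable (fun z => evY h (a z) (b z)) :=
  (continuous_evY h).measurable.comp (ha.prodMk hb)

/-- chain rule along a path for a function with continuous partials on the open rectangle -/
theorem chain (κ κd κv : Y)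
    (h1 : ∀ y t : ℝ, 0 < y → y < 1 → 0 < t → t < Real.pi / 2 →
      HasDerivAt (fun y' => evY κ y' t) (evY κd y t / y) y)
    (h2 : ∀ y t : ℝ, 0 < y → y < 1 → 0 < t → t < Real.pi / 2 →
      HasDerivAt (fun t' => evY κ y t') (evY κv y t / Real.cos t) t)
    (Yf Bf : ℝ → ℝ) (s Y' B' : ℝ) (hY : HasDerivAt Yf Y' s) (hB : HasDerivAt Bf B' s)
    (hy0 : 0 < Yf s) (hy1 : Yf s < 1) (ht0 : 0 < Bf s) (ht1 : Bf s < Real.pi / 2) :
    HasDerivAt (fun s => evY κ (Yf s) (Bf s))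
      (evY κd (Yf s) (Bf s) / Yf s * Y' + evY κv (Yf s) (Bf s) / Real.cos (Bf s) * B') s := by
  set u : ℝ × ℝ := (Yf s, Bf s) with hu
  have hopen : ∀ᶠ v in 𝓝 u, 0 < v.1 ∧ v.1 < 1 ∧ 0 < v.2 ∧ v.2 < Real.pi / 2 := by
    have e1 : ∀ᶠ v : ℝ × ℝ in 𝓝 u, 0 < v.1 :=
      continuous_fst.continuousAt.eventually (lt_mem_nhds hy0)
    have e2 : ∀ᶠ v : ℝ × ℝ in 𝓝 u, v.1 < 1 :=
      continuous_fst.continuousAt.eventually (gt_mem_nhds hy1)
    have e3 : ∀ᶠ v : ℝ × ℝ in 𝓝 u, 0 < v.2 :=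
      continuous_snd.continuousAt.eventually (lt_mem_nhds ht0)
    have e4 : ∀ᶠ v : ℝ × ℝ in 𝓝 u, v.2 < Real.pi / 2 :=
      continuous_snd.continuousAt.eventually (gt_mem_nhds ht1)
    filter_upwards [e1, e2, e3, e4] with v a b c d using ⟨a, b, c, d⟩
  have hcos : Real.cos (Bf s) ≠ 0 :=
    (Real.cos_pos_of_mem_Ioo ⟨by linarith [Real.pi_pos], ht1⟩).ne'
  have key := hasStrictFDerivAt_uncurry_coprod (𝕜 := ℝ) (u := u) (f := fun y t => evY κ y t)
    (f₁ := fun y t => ContinuousLinearMap.toSpanSingleton ℝ (evY κd y t / y))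
    (f₂ := fun y t => ContinuousLinearMap.toSpanSingleton ℝ (evY κv y t / Real.cos t))
    (by
      filter_upwards [hopen] with v hv
      exact (h1 v.1 v.2 hv.1 hv.2.1 hv.2.2.1 hv.2.2.2).hasFDerivAt)
    (by
      filter_upwards [hopen] with v hv
      exact (h2 v.1 v.2 hv.1 hv.2.1 hv.2.2.1 hv.2.2.2).hasFDerivAt)
    (by
      have : ContinuousAt (fun v : ℝ × ℝ => evY κd v.1 v.2 / v.1) u :=
        (continuous_evY κd).continuousAt.div continuous_fst.continuousAt hy0.ne'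
      exact (ContinuousLinearMap.toSpanSingletonCLE (𝕜 := ℝ) (E := ℝ)).continuous.continuousAt.comp this)
    (by
      have : ContinuousAt (fun v : ℝ × ℝ => evY κv v.1 v.2 / Real.cos v.2) u :=
        (continuous_evY κv).continuousAt.div
          (Real.continuous_cos.comp continuous_snd).continuousAt hcos
      exact (ContinuousLinearMap.toSpanSingletonCLE (𝕜 := ℝ) (E := ℝ)).continuous.continuousAt.comp this)
  have h3 := key.hasFDerivAt.comp_hasDerivAt s (hY.prodMk hB)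
  refine (h3.congr_deriv ?_)
  rw [ContinuousLinearMap.coprod_apply]
  simp [Function.HasUncurry.uncurry]
  ring

/-! ### The path -/

/-- `ρ(s) = √(r² cos² ψ + s² sin² ψ)` -/
def ro (r ψ s : ℝ) : ℝ := Real.sqrt (r ^ 2 * Real.cos ψ ^ 2 + s ^ 2 * Real.sin ψ ^ 2)

theorem sig_eq (r ψ s : ℝ) (hs : 0 < s) : s * sig (r / s) ψ = ro r ψ s := by
  unfold sig ro
  have : r ^ 2 * Real.cos ψ ^ 2 + s ^ 2 * Real.sin ψ ^ 2
      = s ^ 2 * ((r / s) ^ 2 * Real.cos ψ ^ 2 + Real.sin ψ ^ 2) := by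
    field_simp
  rw [this, Real.sqrt_mul (sq_nonneg s), Real.sqrt_sq hs.le]

theorem bet_eq (r ψ s : ℝ) (hs : 0 < s) : bet (r / s) ψ = Real.arccos (r / ro r ψ s) := by
  unfold bet
  rw [← sig_eq r ψ s hs, div_div]

theorem sig_one (r ψ : ℝ) : sig r ψ = ro r ψ 1 := by
  unfold sig ro; simp

/-- the integrand of `Mker` (without the factor `sin²`) -/
def mm (k : Fin 4 → Y) (z t ψ : ℝ) : ℝ :=
    (3 * evY (k 1) (z * sig t ψ) (bet t ψ)
      + Real.sin ψ ^ 2 / sig t ψ ^ 2 * evY (k 2) (z * sig t ψ) (bet t ψ)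
      + Real.sin ψ / (sig t ψ * Real.sqrt (1 - t ^ 2)) *
          evY (k 3) (z * sig t ψ) (bet t ψ))

/-- the constant in the bounds -/
def cst (k : Fin 4 → Y) : ℝ := 3 * ‖k 1‖ + ‖k 2‖ + ‖k 3‖

theorem cst_nonneg (k : Fin 4 → Y) : 0 ≤ cst k := by unfold cst; positivity

theorem mm_bound (k : Fin 4 → Y) (z t ψ : ℝ) (ht0 : 0 ≤ t) (ht1 : t < 1) (hψ0 : 0 ≤ ψ)
    (hψ1 : ψ ≤ Real.pi / 2) : |mm k z t ψ| ≤ cst k / Real.sqrt (1 - t ^ 2) := by
  have hsin : 0 ≤ Real.sin ψ := Real.sin_nonneg_of_nonneg_of_le_pi hψ0 (by linarith [Real.pi_pos])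
  have hle : Real.sin ψ ≤ sig t ψ := by
    unfold sig
    apply Real.le_sqrt_of_sq_le
    nlinarith [sq_nonneg (t * Real.cos ψ)]
  have hsg : 0 ≤ sig t ψ := Real.sqrt_nonneg _
  have hq : 0 < 1 - t ^ 2 := by nlinarith
  have hq1 : Real.sqrt (1 - t ^ 2) ≤ 1 := by
    rw [Real.sqrt_le_one]; nlinarith
  have hq0 : 0 < Real.sqrt (1 - t ^ 2) := Real.sqrt_pos.2 hq
  have h1 : 1 ≤ 1 / Real.sqrt (1 - t ^ 2) := by
    rw [le_div_iff₀ hq0]; linarith
  have hr : Real.sin ψ / sig t ψ ≤ 1 := div_le_one_of_le₀ hle hsg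
  have hr0 : 0 ≤ Real.sin ψ / sig t ψ := div_nonneg hsin hsg
  have a1 : |3 * evY (k 1) (z * sig t ψ) (bet t ψ)| ≤ 3 * ‖k 1‖ * (1 / Real.sqrt (1 - t ^ 2)) := by
    rw [abs_mul, abs_of_nonneg (by norm_num : (0:ℝ) ≤ 3)]
    have := evY_bound (k 1) (z * sig t ψ) (bet t ψ)
    have hn : 0 ≤ 3 * ‖k 1‖ := by positivity
    calc 3 * |evY (k 1) (z * sig t ψ) (bet t ψ)| ≤ 3 * ‖k 1‖ * 1 := by linarith
      _ ≤ _ := mul_le_mul_of_nonneg_left h1 hn
  have a2 : |Real.sin ψ ^ 2 / sig t ψ ^ 2 * evY (k 2) (z * sig t ψ) (bet t ψ)|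
      ≤ ‖k 2‖ * (1 / Real.sqrt (1 - t ^ 2)) := by
    rw [abs_mul, ← div_pow, abs_of_nonneg (by positivity)]
    have := evY_bound (k 2) (z * sig t ψ) (bet t ψ)
    have h2 : (Real.sin ψ / sig t ψ) ^ 2 ≤ 1 := pow_le_one₀ hr0 hr
    calc (Real.sin ψ / sig t ψ) ^ 2 * |evY (k 2) (z * sig t ψ) (bet t ψ)|
        ≤ 1 * ‖k 2‖ := mul_le_mul h2 this (abs_nonneg _) zero_le_one
      _ = ‖k 2‖ * 1 := by ring
      _ ≤ _ := mul_le_mul_of_nonneg_left h1 (norm_nonneg _)
  have a3 : |Real.sin ψ / (sig t ψ * Real.sqrt (1 - t ^ 2)) *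
          evY (k 3) (z * sig t ψ) (bet t ψ)| ≤ ‖k 3‖ * (1 / Real.sqrt (1 - t ^ 2)) := by
    have e : Real.sin ψ / (sig t ψ * Real.sqrt (1 - t ^ 2))
      = (Real.sin ψ / sig t ψ) * (1 / Real.sqrt (1 - t ^ 2)) := by
      rw [div_mul_div_comm, mul_one]
    rw [abs_mul, e, abs_of_nonneg (by positivity)]
    have := evY_bound (k 3) (z * sig t ψ) (bet t ψ)
    calc (Real.sin ψ / sig t ψ) * (1 / Real.sqrt (1 - t ^ 2)) *
          |evY (k 3) (z * sig t ψ) (bet t ψ)|
        ≤ 1 * (1 / Real.sqrt (1 - t ^ 2)) * ‖k 3‖ := by gcongr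
      _ = _ := by ring
  calc |mm k z t ψ| ≤ |3 * evY (k 1) (z * sig t ψ) (bet t ψ)|
        + |Real.sin ψ ^ 2 / sig t ψ ^ 2 * evY (k 2) (z * sig t ψ) (bet t ψ)|
        + |Real.sin ψ / (sig t ψ * Real.sqrt (1 - t ^ 2)) *
          evY (k 3) (z * sig t ψ) (bet t ψ)| := by
        unfold mm
        exact (abs_add_le _ _).trans (add_le_add_left (abs_add_le _ _) _)
    _ ≤ 3 * ‖k 1‖ * (1 / Real.sqrt (1 - t ^ 2)) + ‖k 2‖ * (1 / Real.sqrt (1 - t ^ 2))
        + ‖k 3‖ * (1 / Real.sqrt (1 - t ^ 2)) := add_le_add (add_le_add a1 a2) a3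
    _ = _ := by unfold cst; ring

/-- the bound in the variable `s` -/
theorem sing_bound (r s : ℝ) (hr : 0 ≤ r) (hrs : r < s) (hs : s ≤ 1) :
    (s - s ^ 2) * (1 / Real.sqrt (1 - (r / s) ^ 2)) ≤ (s - r) ^ (-(1 / 2) : ℝ) := by
  have hs0 : 0 < s := lt_of_le_of_lt hr hrs
  have hd : 0 < s - r := by linarith
  have h1 : s - r ≤ 1 - (r / s) ^ 2 := by
    rw [div_pow, le_sub_iff_add_le, ← le_sub_iff_add_le', div_le_iff₀ (by positivity)]
    nlinarith [mul_nonneg hr (sub_nonneg.2 hs), mul_pos hd hs0, mul_nonneg hr hd.le,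
      mul_nonneg (mul_nonneg hr hs0.le) (sub_nonneg.2 hs), mul_nonneg (mul_nonneg hd.le hs0.le) (sub_nonneg.2 hs),
      mul_nonneg (mul_nonneg hr hd.le) (sub_nonneg.2 hs)]
  have h2 : Real.sqrt (s - r) ≤ Real.sqrt (1 - (r / s) ^ 2) := Real.sqrt_le_sqrt h1
  have h3 : 0 < Real.sqrt (s - r) := Real.sqrt_pos.2 hd
  have h4 : (s - r) ^ (-(1 / 2) : ℝ) = 1 / Real.sqrt (s - r) := by
    rw [Real.rpow_neg hd.le, Real.sqrt_eq_rpow, one_div, one_div]
  rw [h4]
  have h5 : s - s ^ 2 ≤ 1 := by nlinarith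
  calc (s - s ^ 2) * (1 / Real.sqrt (1 - (r / s) ^ 2))
      ≤ 1 * (1 / Real.sqrt (1 - (r / s) ^ 2)) := by
        apply mul_le_mul_of_nonneg_right h5; positivity
    _ ≤ 1 / Real.sqrt (s - r) := by
        rw [one_mul]; exact one_div_le_one_div_of_le h3 h2

/-! ### Integrability of the singular bound -/

theorem sing_int (r a b : ℝ) :
    IntervalIntegrable (fun s : ℝ => (s - r) ^ (-(1 / 2) : ℝ)) volume a b := by
  have h := intervalIntegral.intervalIntegrable_rpow' (a := a - r) (b := b - r)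
    (r := (-(1 / 2) : ℝ)) (by norm_num)
  have h2 := h.comp_sub_right r
  simpa using h2

theorem meas_sig : Measurable (fun p : ℝ × ℝ => sig p.1 p.2) := by
  unfold sig; fun_prop

theorem meas_bet : Measurable (fun p : ℝ × ℝ => bet p.1 p.2) := by
  unfold bet
  exact Real.continuous_arccos.measurable.comp (measurable_fst.div meas_sig)

theorem meas_mm (k : Fin 4 → Y) :
    Measurable (fun p : ℝ × ℝ × ℝ => mm k p.1 p.2.1 p.2.2) := by
  have hs : Measurable (fun p : ℝ × ℝ × ℝ => sig p.2.1 p.2.2) := meas_sig.comp measurable_snd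
  have hb : Measurable (fun p : ℝ × ℝ × ℝ => bet p.2.1 p.2.2) := meas_bet.comp measurable_snd
  have hz : Measurable (fun p : ℝ × ℝ × ℝ => p.1 * sig p.2.1 p.2.2) := measurable_fst.mul hs
  have e1 := meas_evY (k 1) hz hb
  have e2 := meas_evY (k 2) hz hb
  have e3 := meas_evY (k 3) hz hb
  have hsin : Measurable (fun p : ℝ × ℝ × ℝ => Real.sin p.2.2) := by fun_prop
  have hq : Measurable (fun p : ℝ × ℝ × ℝ => Real.sqrt (1 - p.2.1 ^ 2)) := by fun_prop
  unfold mm
  exact ((measurable_const.mul e1).add (((hsin.pow_const 2).div (hs.pow_const 2)).mul e2)).add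
    ((hsin.div (hs.mul hq)).mul e3)

/-- the pointwise bound of the full integrand -/
theorem full_bound (k : Fin 4 → Y) (z r s ψ : ℝ) (hr : 0 ≤ r) (hrs : r < s) (hs : s ≤ 1)
    (hψ0 : 0 ≤ ψ) (hψ1 : ψ ≤ Real.pi / 2) :
    |(s - s ^ 2) * mm k z (r / s) ψ| ≤ cst k * (s - r) ^ (-(1 / 2) : ℝ) := by
  have hs0 : 0 < s := lt_of_le_of_lt hr hrs
  have h1 := mm_bound k z (r / s) ψ (div_nonneg hr hs0.le) ((div_lt_one hs0).2 hrs) hψ0 hψ1
  have h2 := sing_bound r s hr hrs hs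
  have h3 : 0 ≤ s - s ^ 2 := by nlinarith
  rw [abs_mul, abs_of_nonneg h3]
  calc (s - s ^ 2) * |mm k z (r / s) ψ|
      ≤ (s - s ^ 2) * (cst k / Real.sqrt (1 - (r / s) ^ 2)) :=
        mul_le_mul_of_nonneg_left h1 h3
    _ = cst k * ((s - s ^ 2) * (1 / Real.sqrt (1 - (r / s) ^ 2))) := by ring
    _ ≤ _ := mul_le_mul_of_nonneg_left h2 (cst_nonneg k)

/-! ### The fundamental theorem of calculus along the path -/

theorem ftc (k : Fin 4 → Y) (hk : JetOK k) (x : ℝ) (hx0 : 0 < x) (hx1 : x ≤ 1) (r ψ : ℝ)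
    (hr0 : 0 < r) (hr1 : r < 1) (hψ0 : 0 < ψ) (hψ1 : ψ < Real.pi / 2) :
    ∫ s in r..1, (s - s ^ 2) * mm k (x * s) (r / s) ψ
      = (1 - r ^ 2) * evY (k 0) (x * sig r ψ) (bet r ψ)
        - 2 * (r ^ 2 - r ^ 3) * evY (k 0) (x * r) 0 := by
  obtain ⟨kd, kv, hjet, hk1⟩ := hk
  have hsinψ : 0 < Real.sin ψ := Real.sin_pos_of_pos_of_lt_pi hψ0 (by linarith [Real.pi_pos])
  have hcosψ : 0 < Real.cos ψ := Real.cos_pos_of_mem_Ioo ⟨by linarith [Real.pi_pos], hψ1⟩
  have hsc : Real.sin ψ ^ 2 + Real.cos ψ ^ 2 = 1 := Real.sin_sq_add_cos_sq ψ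
  have hpos : ∀ s : ℝ, 0 < r ^ 2 * Real.cos ψ ^ 2 + s ^ 2 * Real.sin ψ ^ 2 := fun s => by
    positivity
  have hro0 : ∀ s, 0 < ro r ψ s := fun s => Real.sqrt_pos.2 (hpos s)
  have hrosq : ∀ s, ro r ψ s ^ 2 = r ^ 2 * Real.cos ψ ^ 2 + s ^ 2 * Real.sin ψ ^ 2 := fun s =>
    Real.sq_sqrt (hpos s).le
  have hroc : Continuous (fun s => ro r ψ s) := by unfold ro; fun_prop
  set β : ℝ → ℝ := fun s => Real.arccos (r / ro r ψ s) with hβ
  have hβc : Continuous β :=
    Real.continuous_arccos.comp (continuous_const.div hroc fun s => (hro0 s).ne')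
  set G : ℝ → ℝ := fun s => (s ^ 2 - s ^ 3) * evY (k 1) (x * ro r ψ s) (β s)
    + (s ^ 2 - r ^ 2) * evY (k 0) (x * ro r ψ s) (β s) with hG
  have hyc : Continuous (fun s => x * ro r ψ s) := continuous_const.mul hroc
  have hGc : Continuous G := by
    have e1 := cont_evY (k 1) hyc hβc
    have e0 := cont_evY (k 0) hyc hβc
    simp only [hG]
    fun_prop
  have hK1 : ∀ y t : ℝ, 0 ≤ t → t ≤ Real.pi / 2 → evY (k 1) y t
      = 2 * evY (k 0) y t + Real.sin t ^ 2 * evY kd y t + Real.sin t * evY kv y t := by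
    intro y t h0 h1
    rw [hk1]
    have e : ((Set.projIcc (0 : ℝ) (Real.pi / 2) Th_le t : Th) : ℝ) = t := by
      rw [Set.projIcc_of_mem Th_le ⟨h0, h1⟩]
    simp only [evY, ContinuousMap.add_apply, ContinuousMap.smul_apply, ContinuousMap.mul_apply,
      ContinuousMap.pow_apply, smul_eq_mul, w, ContinuousMap.coe_mk, e]
  have hderiv : ∀ s ∈ Ioo r 1, HasDerivAt G ((s - s ^ 2) * mm k (x * s) (r / s) ψ) s := by
    intro s hs
    obtain ⟨hrs, hs1⟩ := hs
    have hs0 : 0 < s := hr0.trans hrs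
    set R : ℝ := ro r ψ s with hR
    have hR0 : 0 < R := hro0 s
    have hR2 : R ^ 2 = r ^ 2 * Real.cos ψ ^ 2 + s ^ 2 * Real.sin ψ ^ 2 := hrosq s
    have hd : 0 < s ^ 2 - r ^ 2 := by nlinarith
    set D : ℝ := Real.sqrt (s ^ 2 - r ^ 2) with hD
    have hD0 : 0 < D := Real.sqrt_pos.2 hd
    have hD2 : D ^ 2 = s ^ 2 - r ^ 2 := Real.sq_sqrt hd.le
    have hR1 : R < 1 := by
      have : R ^ 2 < 1 := by
        rw [hR2]
        have h1 : r ^ 2 < 1 := by nlinarith
        have h2 : s ^ 2 < 1 := by nlinarith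
        have h3 : 0 < Real.cos ψ ^ 2 := by positivity
        have h4 : 0 < Real.sin ψ ^ 2 := by positivity
        nlinarith [mul_pos h3 (sub_pos.2 h1), mul_pos h4 (sub_pos.2 h2)]
      nlinarith
    have hrR : r < R := by
      have : r ^ 2 < R ^ 2 := by
        have h4 : 0 < Real.sin ψ ^ 2 := by positivity
        nlinarith [mul_pos h4 hd]
      nlinarith
    have hu1 : r / R < 1 := (div_lt_one hR0).2 hrR
    have hu0 : 0 < r / R := div_pos hr0 hR0
    have hsq : 1 - (r / R) ^ 2 = (Real.sin ψ * D / R) ^ 2 := by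
      have hR' : R ^ 2 ≠ 0 := by positivity
      rw [div_pow, div_pow, mul_pow, hD2, eq_div_iff hR', sub_mul, div_mul_cancel₀ _ hR', hR2]
      linear_combination r ^ 2 * hsc
    have hsqrt : Real.sqrt (1 - (r / R) ^ 2) = Real.sin ψ * D / R := by
      rw [hsq, Real.sqrt_sq (by positivity)]
    have hβs : β s = Real.arccos (r / R) := rfl
    have hsinβ : Real.sin (β s) = Real.sin ψ * D / R := by
      rw [hβs, Real.sin_arccos, hsqrt]
    have hcosβ : Real.cos (β s) = r / R := by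
      rw [hβs, Real.cos_arccos (by linarith) hu1.le]
    have hβ0 : 0 < β s := by rw [hβs]; exact Real.arccos_pos.2 hu1
    have hβ1 : β s < Real.pi / 2 := by rw [hβs]; exact Real.arccos_lt_pi_div_two.2 hu0
    have dR : HasDerivAt (fun s => ro r ψ s) (s * Real.sin ψ ^ 2 / R) s := by
      have h1 : HasDerivAt (fun s : ℝ => r ^ 2 * Real.cos ψ ^ 2 + s ^ 2 * Real.sin ψ ^ 2)
          (2 * s * Real.sin ψ ^ 2) s := by
        have := ((hasDerivAt_pow 2 s).mul_const (Real.sin ψ ^ 2)).const_add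
          (r ^ 2 * Real.cos ψ ^ 2)
        simpa using this
      have h2 := h1.sqrt (hpos s).ne'
      refine h2.congr_deriv ?_
      change 2 * s * Real.sin ψ ^ 2 / (2 * R) = _
      rw [mul_assoc, mul_div_mul_left _ _ (two_ne_zero)]
    have dy : HasDerivAt (fun s => x * ro r ψ s) (x * (s * Real.sin ψ ^ 2 / R)) s :=
      dR.const_mul x
    have dβ : HasDerivAt β (r * s * Real.sin ψ / (R ^ 2 * D)) s := by
      have h1 : HasDerivAt (fun s => r / ro r ψ s)
          (-(r * (s * Real.sin ψ ^ 2 / R)) / R ^ 2) s := by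
        have := (hasDerivAt_const s r).div dR hR0.ne'
        refine this.congr_deriv ?_
        rw [zero_mul, zero_sub]
      have h2 := (Real.hasDerivAt_arccos (x := r / R) (by linarith) hu1.ne).comp s h1
      refine h2.congr_deriv ?_
      rw [hsqrt]
      field_simp
    have hxR0 : 0 < x * R := mul_pos hx0 hR0
    have hxR1 : x * R < 1 := by nlinarith
    have dK0 := chain (k 0) kd kv (fun y t a b c d => (hjet y t a b c d).1)
      (fun y t a b c d => (hjet y t a b c d).2.1) (fun s => x * ro r ψ s) β s _ _ dy dβ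
      hxR0 hxR1 hβ0 hβ1
    have dK1 := chain (k 1) (k 2) (k 3) (fun y t a b c d => (hjet y t a b c d).2.2.1)
      (fun y t a b c d => (hjet y t a b c d).2.2.2) (fun s => x * ro r ψ s) β s _ _ dy dβ
      hxR0 hxR1 hβ0 hβ1
    have dp1 : HasDerivAt (fun s : ℝ => s ^ 2 - s ^ 3) (2 * s - 3 * s ^ 2) s := by
      refine ((hasDerivAt_pow 2 s).sub (hasDerivAt_pow 3 s)).congr_deriv ?_
      norm_num
    have dp0 : HasDerivAt (fun s : ℝ => s ^ 2 - r ^ 2) (2 * s) s := by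
      have := (hasDerivAt_pow 2 s).sub_const (r ^ 2)
      simpa using this
    have dG := (dp1.mul dK1).add (dp0.mul dK0)
    refine dG.congr_deriv ?_
    have hm : mm k (x * s) (r / s) ψ = 3 * evY (k 1) (x * R) (β s)
        + s ^ 2 * Real.sin ψ ^ 2 / R ^ 2 * evY (k 2) (x * R) (β s)
        + s ^ 2 * Real.sin ψ / (R * D) * evY (k 3) (x * R) (β s) := by
      have hsg : sig (r / s) ψ = R / s := by
        rw [eq_div_iff hs0.ne', mul_comm]; exact sig_eq r ψ s hs0
      have hxs : x * s * sig (r / s) ψ = x * R := by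
        rw [mul_assoc, sig_eq r ψ s hs0]
      have hq : Real.sqrt (1 - (r / s) ^ 2) = D / s := by
        have : 1 - (r / s) ^ 2 = (D / s) ^ 2 := by
          rw [div_pow, div_pow, hD2]; field_simp
        rw [this, Real.sqrt_sq (by positivity)]
      unfold mm
      rw [hxs, bet_eq r ψ s hs0, hq, hsg]
      have e1 : Real.sin ψ ^ 2 / (R / s) ^ 2 = s ^ 2 * Real.sin ψ ^ 2 / R ^ 2 := by
        field_simp
      have e2 : Real.sin ψ / (R / s * (D / s)) = s ^ 2 * Real.sin ψ / (R * D) := by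
        field_simp
      rw [e1, e2]
    have hk1s := hK1 (x * R) (β s) hβ0.le hβ1.le
    rw [hsinβ] at hk1s
    have ea : ∀ K : ℝ, K / (x * R) * (x * (s * Real.sin ψ ^ 2 / R))
        = s * Real.sin ψ ^ 2 / R ^ 2 * K := by
      intro K; field_simp
    have eb : ∀ K : ℝ, K / (r / R) * (r * s * Real.sin ψ / (R ^ 2 * D))
        = s * Real.sin ψ / (R * D) * K := by
      intro K; field_simp
    have h1 : (s ^ 2 - r ^ 2) * (s * Real.sin ψ ^ 2 / R ^ 2) = s * (Real.sin ψ * D / R) ^ 2 := by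
      rw [← hD2]; field_simp
    have h2 : (s ^ 2 - r ^ 2) * (s * Real.sin ψ / (R * D)) = s * (Real.sin ψ * D / R) := by
      rw [← hD2]; field_simp
    have e3 : s ^ 2 * Real.sin ψ ^ 2 / R ^ 2 = s * (s * Real.sin ψ ^ 2 / R ^ 2) := by ring
    have e4 : s ^ 2 * Real.sin ψ / (R * D) = s * (s * Real.sin ψ / (R * D)) := by ring
    rw [hm, e3, e4]
    change (2 * s - 3 * s ^ 2) * evY (k 1) (x * R) (β s)
      + (s ^ 2 - s ^ 3) * (evY (k 2) (x * R) (β s) / (x * R) * (x * (s * Real.sin ψ ^ 2 / R))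
        + evY (k 3) (x * R) (β s) / Real.cos (β s) * (r * s * Real.sin ψ / (R ^ 2 * D)))
      + (2 * s * evY (k 0) (x * R) (β s)
      + (s ^ 2 - r ^ 2) * (evY kd (x * R) (β s) / (x * R) * (x * (s * Real.sin ψ ^ 2 / R))
        + evY kv (x * R) (β s) / Real.cos (β s) * (r * s * Real.sin ψ / (R ^ 2 * D)))) = _
    rw [hcosβ, ea, ea, eb, eb]
    linear_combination (-s) * hk1s + evY kd (x * R) (β s) * h1 + evY kv (x * R) (β s) * h2
  have hint : IntervalIntegrable (fun s => (s - s ^ 2) * mm k (x * s) (r / s) ψ) volume r 1 := by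
    have hb := (sing_int r r 1).const_mul (cst k)
    refine IntervalIntegrable.mono_fun hb ?_ ?_
    · refine Measurable.aestronglyMeasurable ?_
      have : Measurable (fun s : ℝ => mm k (x * s) (r / s) ψ) := by
        exact (meas_mm k).comp (g := fun p : ℝ × ℝ × ℝ => mm k p.1 p.2.1 p.2.2)
          (f := fun s : ℝ => (x * s, r / s, ψ)) (by fun_prop)
      fun_prop
    · rw [Set.uIoc_of_le hr1.le]
      refine (ae_restrict_iff' measurableSet_Ioc).2 (Filter.Eventually.of_forall fun s hs => ?_)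
      have := full_bound k (x * s) r s ψ hr0.le hs.1 hs.2 hψ0.le hψ1.le
      change |(s - s ^ 2) * mm k (x * s) (r / s) ψ| ≤ |cst k * (s - r) ^ (-(1 / 2) : ℝ)|
      exact this.trans (le_abs_self _)
  rw [intervalIntegral.integral_eq_sub_of_hasDerivAt_of_le hr1.le hGc.continuousOn hderiv hint]
  have hror : ro r ψ r = r := by
    have : ro r ψ r = Real.sqrt (r ^ 2) := by
      unfold ro; congr 1; linear_combination r ^ 2 * hsc
    rw [this, Real.sqrt_sq hr0.le]
  have hβr : β r = 0 := by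
    simp only [hβ, hror, div_self hr0.ne', Real.arccos_one]
  have hk0 := hK1 (x * r) 0 le_rfl Th_le
  rw [Real.sin_zero] at hk0
  simp only [hG, hβr, hror, sig_one]
  have e5 : bet r ψ = β 1 := by
    unfold bet; rw [sig_one]
  rw [e5, hk0]
  ring

/-! ### Continuity of the right-hand side -/

theorem cont_H (h : Y) : Continuous (fun p : ℝ × ℝ × ℝ =>
    Real.sin p.2.2 ^ 2 * evY h (p.1 * sig p.2.1 p.2.2) (bet p.2.1 p.2.2)) := by
  have hsin : Continuous (fun p : ℝ × ℝ × ℝ => Real.sin p.2.2 ^ 2) := by fun_prop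
  have hsig : Continuous (fun p : ℝ × ℝ × ℝ => sig p.2.1 p.2.2) := by unfold sig; fun_prop
  rw [continuous_iff_continuousAt]
  intro p
  by_cases hp : Real.sin p.2.2 = 0
  · have h0 : Tendsto (fun q : ℝ × ℝ × ℝ => Real.sin q.2.2 ^ 2 * ‖h‖) (𝓝 p) (𝓝 0) := by
      have h1 : Tendsto (fun q : ℝ × ℝ × ℝ => Real.sin q.2.2 ^ 2 * ‖h‖) (𝓝 p)
          (𝓝 (Real.sin p.2.2 ^ 2 * ‖h‖)) := (hsin.mul continuous_const).tendsto p
      rw [hp] at h1
      simpa using h1
    unfold ContinuousAt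
    have h2 : Tendsto (fun q : ℝ × ℝ × ℝ =>
        Real.sin q.2.2 ^ 2 * evY h (q.1 * sig q.2.1 q.2.2) (bet q.2.1 q.2.2)) (𝓝 p) (𝓝 0) := by
      refine squeeze_zero_norm (fun q => ?_) h0
      rw [norm_mul, Real.norm_eq_abs, Real.norm_eq_abs, abs_of_nonneg (sq_nonneg _)]
      exact mul_le_mul_of_nonneg_left (evY_bound h _ _) (sq_nonneg _)
    simpa [hp] using h2
  · have hpos : 0 < sig p.2.1 p.2.2 := by
      apply Real.sqrt_pos.2
      have : 0 < Real.sin p.2.2 ^ 2 := by positivity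
      nlinarith [sq_nonneg (p.2.1 * Real.cos p.2.2)]
    have hb : ContinuousAt (fun q : ℝ × ℝ × ℝ => bet q.2.1 q.2.2) p := by
      unfold bet
      exact Real.continuous_arccos.continuousAt.comp
        ((continuous_fst.comp continuous_snd).continuousAt.div hsig.continuousAt hpos.ne')
    exact hsin.continuousAt.mul ((continuous_evY h).continuousAt.comp
      ((continuous_fst.continuousAt.mul hsig.continuousAt).prodMk hb))

/-! ### The kernel integrated along `s` -/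

theorem Mker_eq (k : Fin 4 → Y) (z t : ℝ) :
    Mker k z t = ∫ ψ in (0 : ℝ)..(Real.pi / 2), Real.sin ψ ^ 2 * mm k z t ψ := rfl

theorem sin_sq_le (ψ : ℝ) : Real.sin ψ ^ 2 ≤ 1 := Real.sin_sq_le_one ψ

/-- full bound with the factor `sin²` -/
theorem full_bound2 (k : Fin 4 → Y) (z r s ψ : ℝ) (hr : 0 ≤ r) (hrs : r < s) (hs : s ≤ 1)
    (hψ0 : 0 ≤ ψ) (hψ1 : ψ ≤ Real.pi / 2) :
    |(s - s ^ 2) * (Real.sin ψ ^ 2 * mm k z (r / s) ψ)| ≤ cst k * (s - r) ^ (-(1 / 2) : ℝ) := by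
  have h1 := full_bound k z r s ψ hr hrs hs hψ0 hψ1
  have e : (s - s ^ 2) * (Real.sin ψ ^ 2 * mm k z (r / s) ψ)
      = Real.sin ψ ^ 2 * ((s - s ^ 2) * mm k z (r / s) ψ) := by ring
  rw [e, abs_mul, abs_of_nonneg (sq_nonneg _)]
  calc Real.sin ψ ^ 2 * |(s - s ^ 2) * mm k z (r / s) ψ|
      ≤ 1 * |(s - s ^ 2) * mm k z (r / s) ψ| :=
        mul_le_mul_of_nonneg_right (sin_sq_le ψ) (abs_nonneg _)
    _ = |(s - s ^ 2) * mm k z (r / s) ψ| := one_mul _
    _ ≤ _ := h1

theorem step2 (k : Fin 4 → Y) (hk : JetOK k) (x : ℝ) (hx0 : 0 < x) (hx1 : x ≤ 1) (r : ℝ)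
    (hr0 : 0 < r) (hr1 : r < 1) :
    ∫ s in r..1, (s - s ^ 2) * Mker k (x * s) (r / s)
      = (1 - r ^ 2) * (∫ ψ in (0 : ℝ)..(Real.pi / 2), Real.sin ψ ^ 2 *
          evY (k 0) (x * sig r ψ) (bet r ψ))
        - Real.pi / 2 * (r ^ 2 - r ^ 3) * evY (k 0) (x * r) 0 := by
  have hmeas : Measurable (fun p : ℝ × ℝ =>
      (p.1 - p.1 ^ 2) * (Real.sin p.2 ^ 2 * mm k (x * p.1) (r / p.1) p.2)) := by
    have : Measurable (fun p : ℝ × ℝ => mm k (x * p.1) (r / p.1) p.2) :=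
      (meas_mm k).comp (g := fun p : ℝ × ℝ × ℝ => mm k p.1 p.2.1 p.2.2)
          (f := fun p : ℝ × ℝ => (x * p.1, r / p.1, p.2)) (by fun_prop)
    fun_prop
  have hint : IntegrableOn (Function.uncurry fun s ψ =>
      (s - s ^ 2) * (Real.sin ψ ^ 2 * mm k (x * s) (r / s) ψ))
      (uIoc r 1 ×ˢ uIoc 0 (Real.pi / 2)) := by
    rw [uIoc_of_le hr1.le, uIoc_of_le Th_le]
    have hb : IntegrableOn (fun p : ℝ × ℝ => (cst k * (p.1 - r) ^ (-(1 / 2) : ℝ)) * 1)
        (Ioc r 1 ×ˢ Ioc 0 (Real.pi / 2)) := by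
      rw [IntegrableOn, Measure.volume_eq_prod, ← Measure.prod_restrict]
      refine Integrable.mul_prod (f := fun s => cst k * (s - r) ^ (-(1 / 2) : ℝ))
        (g := fun _ => (1 : ℝ)) ?_ ?_
      · exact (((sing_int r r 1).const_mul (cst k)).1)
      · exact integrable_const _
    refine Integrable.mono' hb hmeas.aestronglyMeasurable ?_
    refine (ae_restrict_iff' (measurableSet_Ioc.prod measurableSet_Ioc)).2
      (Filter.Eventually.of_forall fun p hp => ?_)
    rw [mul_one]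
    exact full_bound2 k (x * p.1) r p.1 p.2 hr0.le hp.1.1 hp.1.2 hp.2.1.le hp.2.2
  have hswap := intervalIntegral_intervalIntegral_swap hint
  have e1 : ∫ s in r..1, (s - s ^ 2) * Mker k (x * s) (r / s)
      = ∫ s in r..1, ∫ ψ in (0 : ℝ)..(Real.pi / 2),
        (s - s ^ 2) * (Real.sin ψ ^ 2 * mm k (x * s) (r / s) ψ) := by
    refine intervalIntegral.integral_congr fun s _ => ?_
    simp only [Mker_eq]
    rw [intervalIntegral.integral_const_mul]
  rw [e1, hswap]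
  have e2 : ∫ ψ in (0 : ℝ)..(Real.pi / 2), ∫ s in r..1,
        (s - s ^ 2) * (Real.sin ψ ^ 2 * mm k (x * s) (r / s) ψ)
      = ∫ ψ in (0 : ℝ)..(Real.pi / 2), ((1 - r ^ 2) * (Real.sin ψ ^ 2 *
          evY (k 0) (x * sig r ψ) (bet r ψ))
        - 2 * (r ^ 2 - r ^ 3) * evY (k 0) (x * r) 0 * Real.sin ψ ^ 2) := by
    refine intervalIntegral.integral_congr_uIoo ?_
    rw [Set.uIoo_of_le Th_le]
    intro ψ hψ
    have h := ftc k hk x hx0 hx1 r ψ hr0 hr1 hψ.1 hψ.2
    have e : ∀ s : ℝ, (s - s ^ 2) * (Real.sin ψ ^ 2 * mm k (x * s) (r / s) ψ)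
        = Real.sin ψ ^ 2 * ((s - s ^ 2) * mm k (x * s) (r / s) ψ) := fun s => by ring
    simp only [e]
    rw [intervalIntegral.integral_const_mul, h]
    ring
  rw [e2]
  have hH : Continuous (fun ψ : ℝ => Real.sin ψ ^ 2 * evY (k 0) (x * sig r ψ) (bet r ψ)) :=
    (cont_H (k 0)).comp (g := fun p : ℝ × ℝ × ℝ =>
      Real.sin p.2.2 ^ 2 * evY (k 0) (p.1 * sig p.2.1 p.2.2) (bet p.2.1 p.2.2))
      (f := fun ψ : ℝ => (x, r, ψ)) (by fun_prop)
  have hH1 : IntervalIntegrable (fun ψ : ℝ => (1 - r ^ 2) * (Real.sin ψ ^ 2 *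
      evY (k 0) (x * sig r ψ) (bet r ψ))) volume 0 (Real.pi / 2) :=
    (hH.intervalIntegrable _ _).const_mul _
  rw [intervalIntegral.integral_sub hH1
    (Continuous.intervalIntegrable (by fun_prop) _ _), intervalIntegral.integral_const_mul,
    intervalIntegral.integral_const_mul, integral_sin_sq]
  simp only [Real.sin_zero, Real.cos_zero, Real.sin_pi_div_two, Real.cos_pi_div_two]
  ring

/-! ### Exchange of the integrals on the triangle -/

theorem meas_Mker (k : Fin 4 → Y) : Measurable (fun p : ℝ × ℝ => Mker k p.1 p.2) := by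
  have h : StronglyMeasurable (fun q : (ℝ × ℝ) × ℝ => Real.sin q.2 ^ 2 * mm k q.1.1 q.1.2 q.2) := by
    refine Measurable.stronglyMeasurable ?_
    have : Measurable (fun q : (ℝ × ℝ) × ℝ => mm k q.1.1 q.1.2 q.2) :=
      (meas_mm k).comp (g := fun p : ℝ × ℝ × ℝ => mm k p.1 p.2.1 p.2.2)
          (f := fun q : (ℝ × ℝ) × ℝ => (q.1.1, q.1.2, q.2)) (by fun_prop)
    fun_prop
  have h2 := (h.integral_prod_right' (ν := volume.restrict (Ioc 0 (Real.pi / 2)))).measurable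
  have e : (fun p : ℝ × ℝ => Mker k p.1 p.2) = fun p : ℝ × ℝ =>
      ∫ ψ in Ioc 0 (Real.pi / 2), Real.sin ψ ^ 2 * mm k p.1 p.2 ψ := by
    ext p
    rw [Mker_eq, intervalIntegral.integral_of_le Th_le]
  rw [e]
  exact h2

theorem Mker_bound (k : Fin 4 → Y) (z r s : ℝ) (hr : 0 ≤ r) (hrs : r < s) (hs : s ≤ 1) :
    |(s - s ^ 2) * Mker k z (r / s)| ≤ cst k * (s - r) ^ (-(1 / 2) : ℝ) * (Real.pi / 2) := by
  rw [Mker_eq, ← intervalIntegral.integral_const_mul]
  have h := intervalIntegral.norm_integral_le_of_norm_le_const (a := 0) (b := Real.pi / 2)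
    (C := cst k * (s - r) ^ (-(1 / 2) : ℝ))
    (f := fun ψ => (s - s ^ 2) * (Real.sin ψ ^ 2 * mm k z (r / s) ψ)) (by
      intro ψ hψ
      rw [uIoc_of_le Th_le] at hψ
      exact full_bound2 k z r s ψ hr hrs hs hψ.1.le hψ.2)
  rw [sub_zero, abs_of_nonneg Th_le] at h
  exact h

/-- integrability of the singular kernel on the square -/
theorem sing_sq : Integrable (fun p : ℝ × ℝ => (Ioc (0 : ℝ) 1).indicator (fun _ => (1 : ℝ)) p.2 *
    (Ioc (0 : ℝ) 1).indicator (fun u => u ^ (-(1 / 2) : ℝ)) (p.1 - p.2)) := by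
  have h1 : Integrable ((Ioc (0 : ℝ) 1).indicator (fun _ => (1 : ℝ))) := by
    rw [integrable_indicator_iff measurableSet_Ioc]
    exact integrable_const _
  have h2 : Integrable ((Ioc (0 : ℝ) 1).indicator (fun u : ℝ => u ^ (-(1 / 2) : ℝ))) := by
    rw [integrable_indicator_iff measurableSet_Ioc]
    exact (intervalIntegral.intervalIntegrable_rpow' (a := 0) (b := 1) (by norm_num)).1
  exact h1.convolution_integrand (ContinuousLinearMap.mul ℝ ℝ) h2

theorem step3 (k : Fin 4 → Y) (g : X) (x : ℝ) :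
    (∫ s in (0 : ℝ)..1, ∫ r in (0 : ℝ)..s, (s - s ^ 2) * (evX g (x * r) * Mker k (x * s) (r / s)))
      = ∫ r in (0 : ℝ)..1, ∫ s in r..1,
        (s - s ^ 2) * (evX g (x * r) * Mker k (x * s) (r / s)) := by
  set Ψ : ℝ → ℝ → ℝ := fun s r =>
    if r < s then (s - s ^ 2) * (evX g (x * r) * Mker k (x * s) (r / s)) else 0 with hΨ
  have hmM : Measurable (fun p : ℝ × ℝ => Mker k (x * p.1) (p.2 / p.1)) :=
    (meas_Mker k).comp (g := fun p : ℝ × ℝ => Mker k p.1 p.2)
      (f := fun p : ℝ × ℝ => (x * p.1, p.2 / p.1)) (by fun_prop)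
  have hmg : Measurable (fun p : ℝ × ℝ => evX g (x * p.2)) :=
    (continuous_evX g).measurable.comp (by fun_prop)
  have hmeas : Measurable (Function.uncurry Ψ) := by
    refine Measurable.ite (measurableSet_lt measurable_snd measurable_fst) ?_ measurable_const
    fun_prop
  have hint : IntegrableOn (Function.uncurry Ψ) (uIoc 0 1 ×ˢ uIoc 0 1) := by
    rw [uIoc_of_le zero_le_one]
    have hb := (sing_sq.const_mul (‖g‖ * (cst k * (Real.pi / 2)))).integrableOn
      (s := Ioc (0 : ℝ) 1 ×ˢ Ioc (0 : ℝ) 1)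
    refine Integrable.mono' hb hmeas.aestronglyMeasurable ?_
    refine (ae_restrict_iff' (measurableSet_Ioc.prod measurableSet_Ioc)).2
      (Filter.Eventually.of_forall fun p hp => ?_)
    obtain ⟨⟨hs0, hs1⟩, ⟨hr0, hr1⟩⟩ := hp
    have hn : 0 ≤ ‖g‖ * (cst k * (Real.pi / 2)) :=
      mul_nonneg (norm_nonneg _) (mul_nonneg (cst_nonneg k) Th_le)
    simp only [Function.uncurry, hΨ]
    by_cases hlt : p.2 < p.1
    · rw [if_pos hlt, Set.indicator_of_mem (show p.2 ∈ Ioc (0 : ℝ) 1 from ⟨hr0, hr1⟩),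
        Set.indicator_of_mem (show p.1 - p.2 ∈ Ioc (0 : ℝ) 1 from ⟨by linarith, by linarith⟩)]
      have h1 := Mker_bound k (x * p.1) p.2 p.1 hr0.le hlt hs1
      have e : (p.1 - p.1 ^ 2) * (evX g (x * p.2) * Mker k (x * p.1) (p.2 / p.1))
        = evX g (x * p.2) * ((p.1 - p.1 ^ 2) * Mker k (x * p.1) (p.2 / p.1)) := by ring
      rw [e, Real.norm_eq_abs, abs_mul]
      calc |evX g (x * p.2)| * |(p.1 - p.1 ^ 2) * Mker k (x * p.1) (p.2 / p.1)|
          ≤ ‖g‖ * (cst k * (p.1 - p.2) ^ (-(1 / 2) : ℝ) * (Real.pi / 2)) :=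
            mul_le_mul (evX_bound g _) h1 (abs_nonneg _) (norm_nonneg _)
        _ = _ := by ring
    · rw [if_neg hlt, norm_zero]
      refine mul_nonneg hn (mul_nonneg ?_ ?_)
      · exact Set.indicator_nonneg (fun _ _ => zero_le_one) _
      · exact Set.indicator_nonneg (fun u hu => Real.rpow_nonneg hu.1.le _) _
  have hswap := intervalIntegral_intervalIntegral_swap hint
  have eL : (∫ s in (0 : ℝ)..1, ∫ r in (0 : ℝ)..s,
        (s - s ^ 2) * (evX g (x * r) * Mker k (x * s) (r / s)))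
      = ∫ s in (0 : ℝ)..1, ∫ r in (0 : ℝ)..1, Ψ s r := by
    refine intervalIntegral.integral_congr fun s hs => ?_
    rw [uIcc_of_le zero_le_one] at hs
    rw [intervalIntegral.integral_of_le hs.1, intervalIntegral.integral_of_le zero_le_one,
      integral_Ioc_eq_integral_Ioo, ← integral_indicator measurableSet_Ioo,
      ← integral_indicator measurableSet_Ioc]
    refine integral_congr_ae (Filter.Eventually.of_forall fun r => ?_)
    simp only [Set.indicator, mem_Ioo, mem_Ioc, hΨ]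
    by_cases h0 : 0 < r
    · by_cases h1 : r < s
      · rw [if_pos ⟨h0, h1⟩, if_pos ⟨h0, h1.le.trans hs.2⟩, if_pos h1]
      · rw [if_neg (fun h => h1 h.2), if_neg h1, ite_self]
    · rw [if_neg (fun h => h0 h.1), if_neg (fun h => h0 h.1)]
  have eR : (∫ r in (0 : ℝ)..1, ∫ s in r..1,
        (s - s ^ 2) * (evX g (x * r) * Mker k (x * s) (r / s)))
      = ∫ r in (0 : ℝ)..1, ∫ s in (0 : ℝ)..1, Ψ s r := by
    refine intervalIntegral.integral_congr fun r hr => ?_
    rw [uIcc_of_le zero_le_one] at hr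
    rw [intervalIntegral.integral_of_le hr.2, intervalIntegral.integral_of_le zero_le_one,
      ← integral_indicator measurableSet_Ioc,
      ← integral_indicator measurableSet_Ioc]
    refine integral_congr_ae (Filter.Eventually.of_forall fun s => ?_)
    simp only [Set.indicator, mem_Ioc, hΨ]
    by_cases h0 : r < s
    · by_cases h1 : s ≤ 1
      · rw [if_pos ⟨h0, h1⟩, if_pos ⟨hr.1.trans_lt h0, h1⟩, if_pos h0]
      · rw [if_neg (fun h => h1 h.2), if_neg (fun h => h1 h.2)]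
    · rw [if_neg (fun h => h0 h.1), if_neg h0, ite_self]
  rw [eL, eR, hswap]

/-! ### The identity for positive `x` -/

theorem pos_case (A : (Fin 4 → Y) →L[ℝ] X →L[ℝ] X) (hA : IsA A) (k : Fin 4 → Y)
    (hk : JetOK k) (g : X) (x : ℝ) (hx0 : 0 < x) (hx1 : x ≤ 1) :
    2 * Real.pi * (∫ s in (0 : ℝ)..1, (s ^ 2 - s ^ 3) * evX (A k g) (x * s))
      = ∫ r in (0 : ℝ)..1, evX g (x * r) * ((1 - r ^ 2) *
          ∫ ψ in (0 : ℝ)..(Real.pi / 2), Real.sin ψ ^ 2 *
            evY (k 0) (x * sig r ψ) (bet r ψ)) := by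
  have hπ : (Real.pi : ℝ) ≠ 0 := Real.pi_ne_zero
  -- the two parts
  set P : ℝ → ℝ := fun s => (s ^ 2 - s ^ 3) *
    (Real.pi / 2 * evY (k 0) (x * s) 0 * evX g (x * s)) with hP
  set R : ℝ → ℝ := fun s => (s ^ 2 - s ^ 3) * (2 * Real.pi * evX (A k g) (x * s)) - P s with hR
  have cg : Continuous (fun s : ℝ => evX g (x * s)) := (continuous_evX g).comp (by fun_prop)
  have cA : Continuous (fun s : ℝ => evX (A k g) (x * s)) :=
    (continuous_evX (A k g)).comp (by fun_prop)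
  have c0 : Continuous (fun s : ℝ => evY (k 0) (x * s) 0) :=
    cont_evY (k 0) (by fun_prop) continuous_const
  have cP : Continuous P := by simp only [hP]; fun_prop
  have cR : Continuous R := by simp only [hR]; fun_prop
  have e1 : 2 * Real.pi * (∫ s in (0 : ℝ)..1, (s ^ 2 - s ^ 3) * evX (A k g) (x * s))
      = (∫ s in (0 : ℝ)..1, P s) + ∫ s in (0 : ℝ)..1, R s := by
    rw [← intervalIntegral.integral_add (cP.intervalIntegrable _ _) (cR.intervalIntegrable _ _),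
      ← intervalIntegral.integral_const_mul]
    refine intervalIntegral.integral_congr fun s _ => ?_
    simp only [hR]
    ring
  have e2 : (∫ s in (0 : ℝ)..1, R s) = ∫ s in (0 : ℝ)..1, ∫ r in (0 : ℝ)..s,
      (s - s ^ 2) * (evX g (x * r) * Mker k (x * s) (r / s)) := by
    refine intervalIntegral.integral_congr_uIoo ?_
    rw [Set.uIoo_of_le zero_le_one]
    intro s hs
    have hs0 : s ≠ 0 := hs.1.ne'
    have hz0 : 0 ≤ x * s := mul_nonneg hx0.le hs.1.le
    have hz1 : x * s ≤ 1 := by nlinarith [hs.1, hs.2]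
    have hAs := hA k g (x * s) hz0 hz1
    have hsub := intervalIntegral.integral_comp_mul_left (a := 0) (b := 1)
      (fun r => evX g (x * r) * Mker k (x * s) (r / s)) hs0
    have e3 : ∀ t : ℝ, evX g (x * (s * t)) * Mker k (x * s) (s * t / s)
        = evX g (x * s * t) * Mker k (x * s) t := by
      intro t
      rw [mul_div_cancel_left₀ _ hs0, mul_assoc]
    simp only [e3, mul_zero, mul_one, smul_eq_mul] at hsub
    simp only [hR, hP, hAs]
    rw [hsub, intervalIntegral.integral_const_mul]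
    have e4 : ∀ I : ℝ, 2 * Real.pi * (1 / 4 * evY (k 0) (x * s) 0 * evX g (x * s)
      + 1 / (2 * Real.pi) * (s⁻¹ * I)) = Real.pi / 2 * evY (k 0) (x * s) 0 * evX g (x * s)
        + s⁻¹ * I := by
      intro I; field_simp; ring
    rw [e4]
    field_simp
    ring
  have e5 : ∀ r : ℝ, 0 < r → r < 1 → (∫ s in r..1,
      (s - s ^ 2) * (evX g (x * r) * Mker k (x * s) (r / s)))
      = evX g (x * r) * ((1 - r ^ 2) *
          ∫ ψ in (0 : ℝ)..(Real.pi / 2), Real.sin ψ ^ 2 *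
            evY (k 0) (x * sig r ψ) (bet r ψ)) - P r := by
    intro r hr0 hr1
    have h := step2 k hk x hx0 hx1 r hr0 hr1
    have e : ∀ s : ℝ, (s - s ^ 2) * (evX g (x * r) * Mker k (x * s) (r / s))
        = evX g (x * r) * ((s - s ^ 2) * Mker k (x * s) (r / s)) := fun s => by ring
    simp only [e]
    rw [intervalIntegral.integral_const_mul, h]
    simp only [hP]
    ring
  have cI : Continuous (fun r : ℝ => ∫ ψ in (0 : ℝ)..(Real.pi / 2), Real.sin ψ ^ 2 *
            evY (k 0) (x * sig r ψ) (bet r ψ)) := by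
    refine intervalIntegral.continuous_parametric_intervalIntegral_of_continuous'
      (f := fun r ψ => Real.sin ψ ^ 2 * evY (k 0) (x * sig r ψ) (bet r ψ)) ?_ _ _
    exact (cont_H (k 0)).comp (g := fun p : ℝ × ℝ × ℝ =>
      Real.sin p.2.2 ^ 2 * evY (k 0) (p.1 * sig p.2.1 p.2.2) (bet p.2.1 p.2.2))
      (f := fun q : ℝ × ℝ => (x, q.1, q.2)) (by fun_prop)
  rw [e1, e2, step3]
  have e6 : (∫ r in (0 : ℝ)..1, ∫ s in r..1,
        (s - s ^ 2) * (evX g (x * r) * Mker k (x * s) (r / s)))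
      = ∫ r in (0 : ℝ)..1, (evX g (x * r) * ((1 - r ^ 2) *
          ∫ ψ in (0 : ℝ)..(Real.pi / 2), Real.sin ψ ^ 2 *
            evY (k 0) (x * sig r ψ) (bet r ψ)) - P r) := by
    refine intervalIntegral.integral_congr_uIoo ?_
    rw [Set.uIoo_of_le zero_le_one]
    intro r hr
    exact e5 r hr.1 hr.2
  rw [e6, intervalIntegral.integral_sub (Continuous.intervalIntegrable (by fun_prop) _ _)
    (cP.intervalIntegrable _ _)]
  ring

/-! ### The main theorem -/

theorem path : P_path := by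
  intro A hA k hk g x hx0 hx1
  set L : ℝ → ℝ := fun x =>
    2 * Real.pi * (∫ s in (0 : ℝ)..1, (s ^ 2 - s ^ 3) * evX (A k g) (x * s)) with hL
  set R : ℝ → ℝ := fun x => ∫ r in (0 : ℝ)..1, evX g (x * r) * ((1 - r ^ 2) *
          ∫ ψ in (0 : ℝ)..(Real.pi / 2), Real.sin ψ ^ 2 *
            evY (k 0) (x * sig r ψ) (bet r ψ)) with hR
  have cL : Continuous L := by
    refine continuous_const.mul ?_
    refine intervalIntegral.continuous_parametric_intervalIntegral_of_continuous'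
      (f := fun x s => (s ^ 2 - s ^ 3) * evX (A k g) (x * s)) ?_ _ _
    have : Continuous (fun q : ℝ × ℝ => evX (A k g) (q.1 * q.2)) :=
      (continuous_evX _).comp (by fun_prop)
    exact (by fun_prop : Continuous (fun q : ℝ × ℝ => (q.2 ^ 2 - q.2 ^ 3) *
      evX (A k g) (q.1 * q.2)))
  have cR : Continuous R := by
    refine intervalIntegral.continuous_parametric_intervalIntegral_of_continuous'
      (f := fun x r => evX g (x * r) * ((1 - r ^ 2) *
          ∫ ψ in (0 : ℝ)..(Real.pi / 2), Real.sin ψ ^ 2 *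
            evY (k 0) (x * sig r ψ) (bet r ψ))) ?_ _ _
    have h1 : Continuous (fun q : ℝ × ℝ => evX g (q.1 * q.2)) :=
      (continuous_evX _).comp (by fun_prop)
    have h2 : Continuous (fun q : ℝ × ℝ => ∫ ψ in (0 : ℝ)..(Real.pi / 2), Real.sin ψ ^ 2 *
            evY (k 0) (q.1 * sig q.2 ψ) (bet q.2 ψ)) := by
      refine intervalIntegral.continuous_parametric_intervalIntegral_of_continuous'
        (f := fun (q : ℝ × ℝ) ψ => Real.sin ψ ^ 2 *
          evY (k 0) (q.1 * sig q.2 ψ) (bet q.2 ψ)) ?_ _ _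
      exact (cont_H (k 0)).comp (g := fun p : ℝ × ℝ × ℝ =>
        Real.sin p.2.2 ^ 2 * evY (k 0) (p.1 * sig p.2.1 p.2.2) (bet p.2.1 p.2.2))
        (f := fun q : (ℝ × ℝ) × ℝ => (q.1.1, q.1.2, q.2)) (by fun_prop)
    exact (h1.mul ((continuous_const.sub (continuous_snd.pow 2)).mul h2) :
      Continuous (fun q : ℝ × ℝ => evX g (q.1 * q.2) * ((1 - q.2 ^ 2) *
        ∫ ψ in (0 : ℝ)..(Real.pi / 2), Real.sin ψ ^ 2 *
            evY (k 0) (q.1 * sig q.2 ψ) (bet q.2 ψ))))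
  have heq : EqOn L R (Ioc 0 1) := fun y hy => pos_case A hA k hk g y hy.1 hy.2
  have hcl := heq.closure cL cR
  rw [closure_Ioc (zero_ne_one)] at hcl
  exact hcl ⟨hx0, hx1⟩

end

end Pool.Agent.W466.UniPath
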